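import Pool.Agent.T6.H16.RA.A5

set_option autoImplicit false

/-! The divergence of an integral with a polynomial weight gives a root up to an integer. -/

namespace Pool.Agent.T6.H26.RW

open MvPolynomial MeasureTheory Set Filter Topology Metric
open scoped ContDiff
open Pool.Agent.H628R4.TP (weylS IsBFunction)
open Pool.Agent.T6.H16.RA

variable {n : ℕ} {f : MvPolynomial (Fin n) ℝ} {U K : Set (Fin n → ℝ)}

/-- the integral with a nonnegative weight is analytic -/
lemma ana_w (hf : Reg f U) {s0 : ℝ} {h : (Fin n → ℝ) → ℝ} (hm : Measurable h)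
    (h0 : ∀ x, 0 ≤ h x) (hint : ∀ s, s0 < s → Integrable (fun x => Fs f U s x * h x)) :
    AnalyticOnNhd ℝ (fun t => ∫ x, Fs f U t x * h x) (Ioi s0) := by
  set μ : Measure (Fin n → ℝ) := (volume.restrict U).withDensity fun x => ENNReal.ofReal (h x)
    with hμ
  have hUm : MeasurableSet U := hf.op.measurableSet
  have hfm : Measurable (rv f) := (rv_cont f).measurable
  have hexp : ∀ t : ℝ, ∀ x ∈ U, Real.exp (t * Real.log (rv f x)) = rv f x ^ t := by
    intro t x hx
    rw [Real.rpow_def_of_pos (hf.pos x hx), mul_comm]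
  have hind : ∀ t x, Fs f U t x * h x = U.indicator (fun x => rv f x ^ t * h x) x := by
    intro t x
    by_cases hx : x ∈ U
    · rw [Fs_in hx, indicator_of_mem hx]
    · rw [Fs_out hx, indicator_of_notMem hx, zero_mul]
  have e : (fun t => ∫ x, Fs f U t x * h x) =
      ProbabilityTheory.mgf (fun x => Real.log (rv f x)) μ := by
    funext t
    unfold ProbabilityTheory.mgf
    rw [hμ, integral_withDensity_eq_integral_toReal_smul hm.ennreal_ofReal
      (Eventually.of_forall fun x => ENNReal.ofReal_lt_top)]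
    simp only [hind]
    rw [integral_indicator hUm]
    refine setIntegral_congr_fun hUm fun x hx => ?_
    simp only [smul_eq_mul]
    rw [ENNReal.toReal_ofReal (h0 x), hexp t x hx]
    ring
  rw [e]
  refine (ProbabilityTheory.analyticOnNhd_mgf).mono ?_
  refine interior_maximal (fun t ht => ?_) isOpen_Ioi
  show Integrable _ _
  rw [hμ, integrable_withDensity_iff_integrable_smul₀' hm.ennreal_ofReal.aemeasurable
    (Eventually.of_forall fun x => ENNReal.ofReal_lt_top)]
  have h1 := hint t ht
  simp only [hind] at h1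
  rw [integrable_indicator_iff hUm] at h1
  refine h1.congr_fun ?_ hUm
  intro x hx
  simp only [smul_eq_mul]
  rw [ENNReal.toReal_ofReal (h0 x), hexp t x hx]
  ring

/-- the functional equation, used several times -/
theorem iter_eq (hf : Reg f U) (hK : IsCompact K) (hf0 : cx f ≠ 0) {b : Polynomial ℂ}
    (hb : IsBFunction (cx f) b) : ∃ M : ℝ, 0 < M ∧ ∀ (N : ℕ) (g : (Fin n → ℝ) → ℂ), IsT K g →
      ∃ R : ℝ → ℂ, AnalyticOnNhd ℝ R (Ioi (-(N : ℝ))) ∧ ∀ t, M < t →
        (∏ j ∈ Finset.range N, b.eval ((t : ℂ) + (j : ℂ))) * TT f U g t = R t := by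
  obtain ⟨S, A, M, hM, hA, hfe⟩ := real_eq hf hK hf0 hb
  refine ⟨M, hM, fun N => ?_⟩
  induction N with
  | zero =>
    intro g hg
    refine ⟨TT f U g, ?_, fun t _ => by rw [Finset.range_zero, Finset.prod_empty, one_mul]⟩
    rw [Nat.cast_zero, neg_zero]
    refine ana hf hK (fun s hs => ?_) hg
    have hc : Continuous fun x => rv f x ^ s :=
      (rv_cont _).rpow_const fun x => Or.inr hs.le
    exact (hc.continuousOn.integrableOn_compact hK).mono_set inter_subset_right
  | succ N ih =>
    intro g hg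
    choose R hR1 hR2 using fun m : ℕ => ih (A m g) (hA m g hg)
    refine ⟨fun t => ∑ m ∈ S, (t : ℂ) ^ m * R m (t + 1), ?_, fun t ht => ?_⟩
    · refine Finset.analyticOnNhd_fun_sum S fun m _ => ?_
      have hc : AnalyticOnNhd ℝ (fun t : ℝ => (t : ℂ)) (Ioi (-((N + 1 : ℕ) : ℝ))) := fun t _ =>
        Complex.ofRealCLM.analyticAt t
      refine (hc.pow m).mul ?_
      intro t ht
      have h1 : AnalyticAt ℝ (R m) (t + 1) := hR1 m _ (by
        simp only [mem_Ioi] at ht ⊢
        push_cast at ht
        linarith)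
      exact h1.comp_of_eq (analyticAt_id.add analyticAt_const) rfl
    · rw [Finset.prod_range_succ', Nat.cast_zero, add_zero, mul_assoc, hfe t ht g hg,
        Finset.mul_sum]
      refine Finset.sum_congr rfl fun m _ => ?_
      have h1 := hR2 m (t + 1) (by linarith)
      rw [← h1]
      have h2 : ∀ j : ℕ, ((t : ℂ) + ((j + 1 : ℕ) : ℂ)) = (((t + 1 : ℝ) : ℂ) + (j : ℂ)) := by
        intro j
        push_cast
        ring
      simp only [h2]
      ring

/-- **Divergence of a weighted integral gives a root up to an integer.** -/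
theorem rootW (hf : Reg f U) (hf0 : cx f ≠ 0) {b : Polynomial ℂ} (hb : IsBFunction (cx f) b)
    {h : MvPolynomial (Fin n) ℝ} (hh : ∀ x ∈ U, 0 ≤ rv h x)
    {p : Fin n → ℝ} {ρ : ℝ} (hρ : 0 < ρ) {s0 : ℝ}
    (hint : ∀ s, s0 < s → IntegrableOn (fun x => rv f x ^ s * rv h x) (U ∩ closedBall p ρ))
    (hdiv : ∀ R : ℝ, ∃ᶠ t in 𝓝[>] s0,
      R < ∫ x in U ∩ closedBall p (ρ / 2), rv f x ^ t * rv h x) :
    ∃ j : ℕ, b.eval ((s0 : ℂ) + (j : ℂ)) = 0 := by
  by_contra hb0
  push Not at hb0
  have hK : IsCompact (closedBall p ρ) := isCompact_closedBall p ρ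
  have hUm : MeasurableSet U := hf.op.measurableSet
  obtain ⟨M, hM, hit⟩ := iter_eq hf hK hf0 hb
  obtain ⟨N, hN⟩ := exists_nat_gt (-s0)
  set φ : ContDiffBump p := ⟨ρ / 2, ρ, by linarith, by linarith⟩ with hφ
  set g0 : (Fin n → ℝ) → ℂ := fun x => ((φ x : ℝ) : ℂ) with hg0'
  have hg0 : IsT (closedBall p ρ) g0 := by
    refine ⟨Complex.ofRealCLM.contDiff.comp φ.contDiff, ?_⟩
    have h1 : tsupport g0 ⊆ tsupport φ := by
      refine closure_mono fun x hx => ?_
      rw [Function.mem_support] at hx ⊢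
      intro h0
      exact hx (by rw [hg0']; simp only; rw [h0, Complex.ofReal_zero])
    exact h1.trans φ.tsupport_eq.subset
  have hg := hg0.poly (cx h)
  set g : (Fin n → ℝ) → ℂ := fun x => ev x (cx h) * g0 x with hg'
  obtain ⟨R, hR1, hR2⟩ := hit N g hg
  -- the weight
  set w : (Fin n → ℝ) → ℝ := fun x => max (rv h x) 0 * φ x with hw
  have hw0 : ∀ x, 0 ≤ w x := fun x => mul_nonneg (le_max_right _ _) φ.nonneg
  have hwm : Measurable w := (((rv_cont h).max continuous_const).mul φ.continuous).measurable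
  have hFw : ∀ t x, Fs f U t x * w x = Fs f U t x * (rv h x * φ x) := by
    intro t x
    by_cases hx : x ∈ U
    · rw [hw]
      simp only
      rw [max_eq_left (hh x hx)]
    · rw [Fs_out hx, zero_mul, zero_mul]
  have hTw : ∀ t, TT f U g t = ((∫ x, Fs f U t x * w x : ℝ) : ℂ) := by
    intro t
    unfold TT
    rw [← integral_complex_ofReal]
    refine integral_congr_ae (Eventually.of_forall fun x => ?_)
    simp only [hFw]
    rw [hg', hg0']
    simp only
    rw [ev_cx]
    push_cast
    ring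
  have hiw : ∀ t, s0 < t → Integrable fun x => Fs f U t x * w x := by
    intro t ht
    have h1 := hint t ht
    have h2 : Integrable ((U ∩ closedBall p ρ).indicator fun x => rv f x ^ t * rv h x) :=
      (integrable_indicator_iff (hUm.inter measurableSet_closedBall)).2 h1
    refine Integrable.mono' h2 ?_ (Eventually.of_forall fun x => ?_)
    · refine Measurable.aestronglyMeasurable ?_
      exact ((((rv_cont f).measurable).pow_const t).indicator hUm).mul hwm
    · rw [Real.norm_eq_abs, abs_of_nonneg (mul_nonneg (Fs_nonneg hf t x) (hw0 x)), hFw]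
      by_cases hx : x ∈ U
      · by_cases hxK : x ∈ closedBall p ρ
        · rw [indicator_of_mem (s := U ∩ closedBall p ρ) ⟨hx, hxK⟩, Fs_in hx]
          refine mul_le_mul_of_nonneg_left ?_ (Real.rpow_nonneg (hf.pos x hx).le _)
          exact mul_le_of_le_one_right (hh x hx) φ.le_one
        · rw [indicator_of_notMem (s := U ∩ closedBall p ρ) (fun h => hxK h.2)]
          have h3 : φ x = 0 := by
            by_contra h4
            exact hxK (φ.tsupport_eq.subset (subset_tsupport φ h4))
          rw [h3, mul_zero, mul_zero]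
      · rw [indicator_of_notMem (s := U ∩ closedBall p ρ) (fun h => hx h.1), Fs_out hx,
          zero_mul]
  have hT1 : AnalyticOnNhd ℝ (fun t => ∫ x, Fs f U t x * w x) (Ioi s0) := ana_w hf hwm hw0 hiw
  have hT : AnalyticOnNhd ℝ (TT f U g) (Ioi s0) := by
    have : TT f U g = fun t => ((∫ x, Fs f U t x * w x : ℝ) : ℂ) := funext hTw
    rw [this]
    exact analytic_ofReal hT1
  set B : ℝ → ℂ := fun t => ∏ j ∈ Finset.range N, b.eval ((t : ℂ) + (j : ℂ)) with hB
  have hBa : AnalyticOnNhd ℝ B univ := by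
    intro t _
    have h1 : AnalyticAt ℝ (fun z : ℂ => ∏ j ∈ Finset.range N, b.eval (z + (j : ℂ))) (t : ℂ) := by
      have h2 : AnalyticAt ℂ (fun z : ℂ => Polynomial.aeval z
          (∏ j ∈ Finset.range N, b.comp (Polynomial.X + Polynomial.C (j : ℂ)))) (t : ℂ) :=
        AnalyticAt.aeval_polynomial analyticAt_id _
      have h3 := h2.restrictScalars (𝕜 := ℝ)
      refine h3.congr (Eventually.of_forall fun z => ?_)
      simp only [Polynomial.coe_aeval_eq_eval, Polynomial.eval_prod, Polynomial.eval_comp,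
        Polynomial.eval_add, Polynomial.eval_X, Polynomial.eval_C]
    exact h1.comp (Complex.ofRealCLM.analyticAt t)
  have hsub : Ioi s0 ⊆ Ioi (-(N : ℝ)) := fun t ht => by
    simp only [mem_Ioi] at ht ⊢
    linarith
  have hfe2 : EqOn (fun t : ℝ => B t * TT f U g t - R t) 0 (Ioi s0) := by
    refine AnalyticOnNhd.eqOn_zero_of_preconnected_of_eventuallyEq_zero (𝕜 := ℝ) ?_
      isPreconnected_Ioi (z₀ := max M s0 + 1) ?_ ?_
    · exact ((hBa.mono (subset_univ _)).mul hT).sub (hR1.mono hsub)
    · simp only [mem_Ioi]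
      have := le_max_right M s0
      linarith
    · have h1 : Ioi M ∈ 𝓝 (max M s0 + 1) := Ioi_mem_nhds (by
        have := le_max_left M s0
        linarith)
      filter_upwards [h1] with t ht
      simp only [Pi.zero_apply]
      rw [hB]
      simp only
      rw [hR2 t ht, sub_self]
  have hBs : B s0 ≠ 0 := by
    rw [hB]
    simp only
    exact Finset.prod_ne_zero_iff.2 fun j _ => hb0 j
  have hRc : ContinuousAt R s0 := (hR1 s0 (by
    simp only [mem_Ioi]
    linarith)).continuousAt
  have hBc : ContinuousAt B s0 := (hBa s0 (mem_univ _)).continuousAt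
  have hlim : Tendsto (TT f U g) (𝓝[>] s0) (𝓝 (R s0 / B s0)) := by
    have h1 := (hRc.tendsto.div hBc.tendsto hBs).mono_left (nhdsWithin_le_nhds (s := Ioi s0))
    refine h1.congr' ?_
    have h2 : ∀ᶠ t : ℝ in 𝓝[>] s0, B t ≠ 0 :=
      (hBc.eventually_ne hBs).filter_mono nhdsWithin_le_nhds
    filter_upwards [h2, self_mem_nhdsWithin] with t ht ht0
    have h3 := hfe2 ht0
    simp only [Pi.zero_apply] at h3
    rw [Pi.div_apply, ← sub_eq_zero.1 h3, mul_div_cancel_left₀ _ ht]
  have hbd : ∃ r : ℝ, ∀ᶠ t in 𝓝[>] s0, ‖TT f U g t‖ ≤ r := by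
    refine ⟨‖R s0 / B s0‖ + 1, ?_⟩
    have h1 := hlim.norm.eventually (gt_mem_nhds (lt_add_one _))
    filter_upwards [h1] with t ht
    exact ht.le
  obtain ⟨r, hrb⟩ := hbd
  have hfr := hdiv r
  refine hfr ?_
  filter_upwards [hrb, self_mem_nhdsWithin] with t ht ht0 hlt
  have h1 : (∫ x in U ∩ closedBall p (ρ / 2), rv f x ^ t * rv h x) ≤
      ∫ x, Fs f U t x * w x := by
    rw [← integral_indicator (hUm.inter measurableSet_closedBall)]
    refine integral_mono_of_nonneg (Eventually.of_forall fun x => ?_) (hiw t ht0)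
      (Eventually.of_forall fun x => ?_)
    · exact indicator_nonneg (fun y hy => mul_nonneg (Real.rpow_nonneg (hf.pos y hy.1).le _)
        (hh y hy.1)) x
    · show (U ∩ closedBall p (ρ / 2)).indicator _ x ≤ Fs f U t x * w x
      rw [hFw]
      by_cases hx : x ∈ U ∩ closedBall p (ρ / 2)
      · rw [indicator_of_mem hx, Fs_in hx.1, φ.one_of_mem_closedBall hx.2, mul_one]
      · rw [indicator_of_notMem hx, ← hFw]
        exact mul_nonneg (Fs_nonneg hf t x) (hw0 x)
  have h2 : ‖TT f U g t‖ = ∫ x, Fs f U t x * w x := by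
    rw [hTw, Complex.norm_real, Real.norm_eq_abs, abs_of_nonneg]
    exact integral_nonneg fun x => mul_nonneg (Fs_nonneg hf t x) (hw0 x)
  linarith

end Pool.Agent.T6.H26.RW
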